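import Mathlib
import Pool.Agent.H361R2.PP.Asm4

/-! For all `lam` and `r` a positive proportion of the primes start a chain of `r` consecutive gaps,
each of them at least `lam` times the logarithm of its left end. -/

open Classical in
theorem Pool.Agent.Results.MP_b0c12c_nt.ChainsOfLargeGaps.result :
    ∀ (lam : ℝ) (r : ℕ), ∃ c : ℝ, 0 < c ∧ ∃ N₀ : ℕ, ∀ N : ℕ, N₀ ≤ N →
      c * N ≤ (((Finset.range N).filter (fun j : ℕ => ∀ i < r,
        lam * Real.log (Nat.nth Nat.Prime (j + i)) ≤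
          (Nat.nth Nat.Prime (j + i + 1) : ℝ) - Nat.nth Nat.Prime (j + i))).card : ℝ) := by
  intro lam r
  obtain ⟨c, hc, N₀, h⟩ := Pool.Agent.H361R2.PP.chains lam r
  refine ⟨c, hc, N₀, fun N hN => (h N hN).trans (Nat.cast_le.2 (Finset.card_le_card ?_))⟩
  intro n hn
  rw [Finset.mem_filter] at hn ⊢
  exact hn
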