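import Mathlib
import Pool.Agent.H312R2.RG.Fin
import Pool.Agent.H312R2.RG.C3
import Pool.Agent.H488R2.LP.Dens

set_option autoImplicit false

open Filter MeasureTheory

namespace Pool.Agent.Results.MP_b0c12c_nt.LimitPointsRecordScale

/-- The record scale `f(x) = log x (log₂ x)² log₄ x / (log₃ x)²` (iterated natural logarithms). -/
noncomputable def f (x : ℝ) : ℝ :=
  Real.log x * (Real.log (Real.log x)) ^ 2 * Real.log (Real.log (Real.log (Real.log x))) /
    (Real.log (Real.log (Real.log x))) ^ 2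

/-- The vector of the `m` consecutive prime gaps starting with the gap after the prime number `n`
(counted from `0`), divided by the value of `f` at that prime. -/
noncomputable def gaps (m n : ℕ) : Fin m → ℝ := fun i =>
  ((Nat.nth Nat.Prime (n + i + 1) : ℝ) - Nat.nth Nat.Prime (n + i)) / f (Nat.nth Nat.Prime n)

/-- The set of the limit points in `ℝ^m` of the sequence `n ↦ gaps m n`. -/
def limitPoints (m : ℕ) : Set (Fin m → ℝ) := {v | MapClusterPt v atTop (gaps m)}

/-- For every `m` there are `K` and `c > 0` such that for any `K` reals `0 < β_1 < ... < β_K ≤ c` there are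
indices `j_0 < ... < j_m` for which `(β_{j_1} - β_{j_0}, ..., β_{j_m} - β_{j_{m-1}})` is a limit point of
the vectors of `m` consecutive prime gaps divided by `f`. -/
theorem result : ∀ m : ℕ, ∃ K : ℕ, ∃ c : ℝ, 0 < c ∧ ∀ β : Fin K → ℝ, StrictMono β →
    (∀ j, 0 < β j ∧ β j ≤ c) → ∃ j : Fin (m + 1) → Fin K, StrictMono j ∧
      (fun i : Fin m => β (j i.succ) - β (j i.castSucc)) ∈ limitPoints m := by
  intro m
  obtain ⟨K, c, hc, h⟩ := Pool.Agent.H312R2.RG.limit_points_of Pool.Agent.H312R2.RG.mtrg m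
  refine ⟨K, c, hc, fun β hβ hβc => ?_⟩
  obtain ⟨j, hj, hjl⟩ := h β hβ hβc
  refine ⟨j, hj, ?_⟩
  show MapClusterPt _ atTop (gaps m)
  rw [mapClusterPt_iff_frequently]
  intro s hs
  obtain ⟨ε, hε, hεs⟩ := Metric.mem_nhds_iff.1 hs
  refine (hjl ε hε).mono fun n hn => hεs ?_
  rw [Metric.mem_ball, dist_pi_lt_iff hε]
  intro i
  rw [Real.dist_eq]
  exact hn i

/-- Consequence: for every `m` there is `c > 0` such that the set of the limit points of the vectors of `m`
consecutive prime gaps divided by `f` has in `[0, T]^m` Lebesgue measure at least `c T^m`, for every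
`0 < T ≤ c`. -/
theorem measure : ∀ m : ℕ, ∃ c : ℝ, 0 < c ∧ ∀ T : ℝ, 0 < T → T ≤ c →
    ENNReal.ofReal (c * T ^ m) ≤ volume (limitPoints m ∩ {v | ∀ i, v i ∈ Set.Icc 0 T}) := by
  intro m
  obtain ⟨K, c, hc, h⟩ := result m
  refine Pool.Agent.H488R2.LP.dens hc (limitPoints m) ?_ h
  have : IsClosed (limitPoints m) := isClosed_setOf_clusterPt
  exact this.measurableSet

end Pool.Agent.Results.MP_b0c12c_nt.LimitPointsRecordScale
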