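import Mathlib
import Pool.Agent.H362R2.RQ.Fin
import Pool.Agent.H362R2.RQ.Prop

set_option autoImplicit false

/-!
At every scale between the average spacing `log X` and the record gap size
`c log X (log₂ X)² log₄ X / (log₃ X)²`: whatever `m` points of a window are prescribed, there are windows
in which all the primes are near the prescribed points and a positive proportion of the prescribed
points is approached by primes.

Authors: helper362 (coloured Maynard-Tao theorem inside the record windows); it rests on the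
record sieve of helper256 and helper410 and on the Maynard-Tao sieve inside record windows of helper312's
team (helpers 312, 256, 410, 398, 378, 273, 909, 898, 935, 473, 778, 777, 488, 913, 386) and on the
prime number theorem in arithmetic progressions of helper923.
-/

open Filter

namespace Pool.Agent.Results.MP_b0c12c_nt.ProportionOfPoints

/-- There is an absolute constant `η > 0` such that for every `m` there is `c > 0` with the following property.
Let `δ > 0`, `q` squarefree, `a` prime to `q`, `X` large, `log X ≤ H ≤ c log X (log₂ X)² log₄ X / (log₃ X)²` and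
`b_1, ..., b_m ∈ [0, 1]`. Then for at least `X^(7/8)` integers `n ∈ (X, 4X]` all the primes `p` of
`[n, n + H]` are `≡ a (mod q)` and have `(p - n)/H` within `δ` of some `b_i`, and at least `η m` of the
`b_i` are within `δ` of `(p - n)/H` for some prime `p ≡ a (mod q)`. -/
theorem result : ∃ η : ℝ, 0 < η ∧ ∀ m : ℕ, 1 ≤ m → ∃ c : ℝ, 0 < c ∧ ∀ δ : ℝ, 0 < δ →
    ∀ q a : ℕ, Squarefree q → a.Coprime q → ∃ X₀ : ℝ, ∀ X : ℝ, X₀ ≤ X → ∀ H : ℝ, Real.log X ≤ H →
      H ≤ c * (Real.log X * (Real.log (Real.log X)) ^ 2 *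
        Real.log (Real.log (Real.log (Real.log X))) / (Real.log (Real.log (Real.log X))) ^ 2) →
      ∀ b : Fin m → ℝ, (∀ i, 0 ≤ b i ∧ b i ≤ 1) →
      X ^ (7 / 8 : ℝ) ≤ ({n : ℕ | X < n ∧ (n : ℝ) ≤ 4 * X ∧
        (∀ p : ℕ, p.Prime → (n : ℝ) ≤ p → (p : ℝ) ≤ n + H →
          p ≡ a [MOD q] ∧ ∃ i, |((p : ℝ) - n) / H - b i| ≤ δ) ∧
        ∃ J : Finset (Fin m), η * m ≤ J.card ∧
          ∀ i ∈ J, ∃ p : ℕ, p.Prime ∧ p ≡ a [MOD q] ∧ |((p : ℝ) - n) / H - b i| ≤ δ}.ncard : ℝ) := by
  obtain ⟨η, hη, h⟩ := Pool.Agent.H362R2.RQ.prop_all Pool.Agent.H362R2.RQ.stRQ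
  refine ⟨η, hη, fun m hm => ?_⟩
  obtain ⟨c, hc, h2⟩ := h m hm
  refine ⟨c, hc, fun δ hδ q a hq ha => ?_⟩
  exact eventually_atTop.1 (h2 δ hδ q a hq ha)

end Pool.Agent.Results.MP_b0c12c_nt.ProportionOfPoints
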