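import Mathlib
import Pool.Agent.H316R2.G5

set_option autoImplicit false

open Finset

namespace Pool.Agent.Results.MP_b0c12c_nt.RankinBarrier

/-- The residue classes `a p` modulo the primes `p ≤ z` cover every integer of `[1, z e^t]`. -/
def Covers (z : ℕ) (t : ℝ) (a : ℕ → ℤ) : Prop :=
  ∀ n : ℕ, 1 ≤ n → (n:ℝ) ≤ z * Real.exp t → ∃ p : ℕ, p.Prime ∧ p ≤ z ∧ (p:ℤ) ∣ (n:ℤ) - a p

/-- The primes `w < p ≤ z` whose class is not the zero class. -/
noncomputable def nonzeroPrimes (w z : ℕ) (a : ℕ → ℤ) : Finset ℕ :=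
  (Ioc w z).filter (fun p : ℕ => p.Prime ∧ ¬ (p:ℤ) ∣ a p)

theorem Covers.mono {z : ℕ} {s t : ℝ} {a : ℕ → ℤ} (h : Covers z t a) (hst : s ≤ t) :
    Covers z s a := by
  intro n h1 h2
  refine h n h1 (h2.trans ?_)
  have : Real.exp s ≤ Real.exp t := Real.exp_le_exp.mpr hst
  gcongr

theorem log_eq {z p : ℕ} (hz : 0 < z) (hp : 0 < p) (t : ℝ) :
    Real.log (z * Real.exp t / p) = Real.log z + t - Real.log p := by
  have h1 : (z:ℝ) ≠ 0 := by positivity
  have h2 : (p:ℝ) ≠ 0 := by positivity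
  rw [Real.log_div (by positivity) h2, Real.log_mul h1 (Real.exp_pos _).ne', Real.log_exp]

/-- a crude form of `result` -/
theorem crude : ∃ c : ℝ, 0 < c ∧ ∃ t₀ : ℝ, 0 < t₀ ∧ ∃ z₀ : ℕ, ∀ z : ℕ, z₀ ≤ z →
    ∀ w : ℕ, 1 ≤ w → w ^ 200 ≤ z → ∀ t : ℝ, t₀ ≤ t → t ≤ Real.log z →
    ∀ a : ℕ → ℤ, Covers z t a →
    c ≤ Real.log z / t * max 1 (Real.log w / t) * ∑ p ∈ nonzeroPrimes w z a, 1 / (p:ℝ) := by
  obtain ⟨c, hc, t₀, ht₀, z₀, h⟩ := Pool.Agent.H316R2.barrier2
  refine ⟨c, hc, t₀, ht₀, max z₀ 3, ?_⟩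
  intro z hz w hw hwz t ht1 ht2 a hcov
  have hz3 : 3 ≤ z := (le_max_right _ _).trans hz
  have hL : 0 < Real.log z := Real.log_pos (by exact_mod_cast (by omega : 1 < z))
  have ht : 0 < t := lt_of_lt_of_le ht₀ ht1
  refine (h z ((le_max_left _ _).trans hz) w hw hwz t ht1 ht2 a hcov).trans ?_
  rw [mul_sum]
  unfold nonzeroPrimes
  apply sum_le_sum
  intro p hp
  rw [mem_filter, mem_Ioc] at hp
  have hp0 : (0:ℝ) < p := by exact_mod_cast hp.2.1.pos
  have hlp : Real.log p ≤ Real.log z := Real.log_le_log hp0 (by exact_mod_cast hp.1.2)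
  have hu : t ≤ Real.log z + t - Real.log p := by linarith
  have hlw := Real.log_natCast_nonneg w
  have h1 : Real.log z / (Real.log z + t - Real.log p) ≤ Real.log z / t :=
    div_le_div_of_nonneg_left hL.le ht hu
  have h2 : max 1 (Real.log w / (Real.log z + t - Real.log p)) ≤ max 1 (Real.log w / t) :=
    max_le_max le_rfl (div_le_div_of_nonneg_left hlw ht hu)
  have h3 : 0 ≤ Real.log z / (Real.log z + t - Real.log p) := div_nonneg hL.le (by linarith)
  calc _ ≤ 1 / (p:ℝ) * (Real.log z / t) * max 1 (Real.log w / t) := by gcongr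
    _ = _ := by ring

/-- Consequence: lower bound for the harmonic measure of the nonzero classes. -/
theorem part_two : ∃ c : ℝ, 0 < c ∧ ∃ t₀ : ℝ, 0 < t₀ ∧ ∃ z₀ : ℕ, ∀ z : ℕ, z₀ ≤ z →
    ∀ w : ℕ, 2 ≤ w → w ^ 200 ≤ z → ∀ t : ℝ, t₀ ≤ t → t ≤ Real.log z →
    ∀ a : ℕ → ℤ, Covers z t a →
    c * (t / Real.log z) * min 1 (t / Real.log w) ≤ ∑ p ∈ nonzeroPrimes w z a, 1 / (p:ℝ) := by
  obtain ⟨c, hc, t₀, ht₀, z₀, h⟩ := crude
  refine ⟨c, hc, t₀, ht₀, max z₀ 3, ?_⟩
  intro z hz w hw hwz t ht1 ht2 a hcov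
  have hz3 : 3 ≤ z := (le_max_right _ _).trans hz
  have hL : 0 < Real.log z := Real.log_pos (by exact_mod_cast (by omega : 1 < z))
  have ht : 0 < t := lt_of_lt_of_le ht₀ ht1
  have hlw : 0 < Real.log w := Real.log_pos (by exact_mod_cast (by omega : 1 < w))
  have h1 := h z ((le_max_left _ _).trans hz) w (by omega) hwz t ht1 ht2 a hcov
  set S := ∑ p ∈ nonzeroPrimes w z a, 1 / (p:ℝ) with hS
  have hm : min 1 (t / Real.log w) * max 1 (Real.log w / t) = 1 := by
    rcases le_total t (Real.log w) with h2 | h2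
    · have h3 : t / Real.log w ≤ 1 := (div_le_one hlw).mpr h2
      have h4 : 1 ≤ Real.log w / t := (one_le_div ht).mpr h2
      rw [min_eq_right h3, max_eq_right h4]
      field_simp
    · have h3 : 1 ≤ t / Real.log w := (one_le_div hlw).mpr h2
      have h4 : Real.log w / t ≤ 1 := (div_le_one ht).mpr h2
      rw [min_eq_left h3, max_eq_left h4, one_mul]
  have h0 : 0 ≤ t / Real.log z * min 1 (t / Real.log w) := by positivity
  have h2 := mul_le_mul_of_nonneg_left h1 h0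
  have e : t / Real.log z * min 1 (t / Real.log w) *
      (Real.log z / t * max 1 (Real.log w / t) * S) = S := by
    calc _ = (t / Real.log z * (Real.log z / t)) *
        (min 1 (t / Real.log w) * max 1 (Real.log w / t)) * S := by ring
      _ = S := by
          rw [hm]
          field_simp
  rw [e] at h2
  linarith

theorem short_sum : ∃ C : ℝ, 0 < C ∧ ∀ z : ℕ, 6 ≤ z → ∀ A : Finset ℕ,
    (∀ p ∈ A, p.Prime ∧ z < 2 * p ∧ p ≤ z) → ∑ p ∈ A, 1 / (p:ℝ) ≤ C / Real.log z := by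
  obtain ⟨C, hC0, hC⟩ := Pool.Agent.Helper923.HMertens.mertens_ratio
  refine ⟨6 * C + 6, by positivity, ?_⟩
  intro z hz A hA
  set y := z / 2 with hy
  have hy2 : 3 ≤ y := by omega
  have hzy : z ≤ y ^ 3 := by
    have h1 : z ≤ 2 * y + 1 := by omega
    nlinarith only [h1, hy2, Nat.mul_le_mul hy2 hy2, Nat.mul_le_mul (Nat.mul_le_mul hy2 hy2) hy2,
      Nat.mul_le_mul (Nat.mul_le_mul hy2 hy2) (le_refl y)]
  have hly : 0 < Real.log y := Real.log_pos (by exact_mod_cast (by omega : 1 < y))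
  have hlz : Real.log z ≤ 3 * Real.log y := by
    have h1 := Real.log_le_log (x := (z:ℝ)) (y := ((y ^ 3 : ℕ) : ℝ))
      (by exact_mod_cast (by omega : 0 < z)) (by exact_mod_cast hzy)
    push_cast at h1
    rw [Real.log_pow] at h1
    exact_mod_cast h1
  have hlz0 : 0 < Real.log z := Real.log_pos (by exact_mod_cast (by omega : 1 < z))
  have h1 := (abs_le.mp (hC y z (by omega) (by omega))).2
  have h2 : ∑ p ∈ A, 1 / (p:ℝ) ≤ ∑ p ∈ (Ioc y z).filter Nat.Prime, 1 / (p:ℝ) := by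
    apply sum_le_sum_of_subset_of_nonneg
    · intro p hp
      have := hA p hp
      rw [mem_filter, mem_Ioc]
      exact ⟨⟨by omega, this.2.2⟩, this.1⟩
    · intro _ _ _; positivity
  have hratio : Real.log (Real.log z / Real.log y) ≤ 2 / Real.log y := by
    have h3 : Real.log z / Real.log y ≤ 1 + 2 / Real.log y := by
      have h4 : Real.log z ≤ Real.log y + 2 := by
        have h5 : (z:ℝ) ≤ 3 * y := by exact_mod_cast (by omega : z ≤ 3 * y)
        have h6 := Real.log_le_log (by exact_mod_cast (by omega : 0 < z)) h5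
        rw [Real.log_mul (by norm_num) (by positivity)] at h6
        have h7 : Real.log 3 ≤ 2 := by
          have := Real.log_le_sub_one_of_pos (show (0:ℝ) < 3 by norm_num)
          linarith
        linarith
      rw [div_le_iff₀ hly]
      have : (1 + 2 / Real.log y) * Real.log y = Real.log y + 2 := by field_simp
      linarith
    have h4 := Real.log_le_sub_one_of_pos (show 0 < Real.log z / Real.log y by positivity)
    linarith
  have h3 : ∑ p ∈ A, 1 / (p:ℝ) ≤ (C + 2) / Real.log y := by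
    rw [add_div]; linarith
  refine h3.trans ?_
  rw [div_le_div_iff₀ hly hlz0]
  calc (C + 2) * Real.log z ≤ (C + 2) * (3 * Real.log y) := by gcongr
    _ = (3 * C + 6) * Real.log y := by ring
    _ ≤ (6 * C + 6) * Real.log y := by gcongr; linarith

/-- Consequence: if all the classes of the primes `w < p ≤ z/2` are zero, then
`t ≤ C (1 + √(log w))`. -/
theorem part_three : ∃ C : ℝ, 0 < C ∧ ∃ z₀ : ℕ, ∀ z : ℕ, z₀ ≤ z →
    ∀ w : ℕ, 1 ≤ w → w ^ 200 ≤ z →
    ∀ a : ℕ → ℤ, (∀ p : ℕ, p.Prime → w < p → 2 * p ≤ z → (p:ℤ) ∣ a p) →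
    ∀ t : ℝ, Covers z t a → t ≤ C * (1 + Real.sqrt (Real.log w)) := by
  obtain ⟨c, hc, t₀, ht₀, z₀, h⟩ := crude
  obtain ⟨C1, hC1, hs⟩ := short_sum
  set C := Real.sqrt (C1 / c) with hC
  have hCpos : 0 < C := Real.sqrt_pos.mpr (by positivity)
  have hc1 : 0 < C1 / c := by positivity
  refine ⟨C + t₀ + C1 / c, by positivity, max (max z₀ 6) ⌈Real.exp (t₀ + C1 / c + 1)⌉₊, ?_⟩
  intro z hz w hw hwz a ha t hcov
  have hz6 : 6 ≤ z := (le_max_right _ _).trans ((le_max_left _ _).trans hz)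
  have hz0 : z₀ ≤ z := (le_max_left _ _).trans ((le_max_left _ _).trans hz)
  have hzE : Real.exp (t₀ + C1 / c + 1) ≤ z :=
    (Nat.le_ceil _).trans (by exact_mod_cast (le_max_right _ _).trans hz)
  have hzpos : (0:ℝ) < z := by linarith [Real.exp_pos (t₀ + C1 / c + 1)]
  set L := Real.log z with hL
  have hLL0 : t₀ + C1 / c + 1 ≤ L := by rw [hL, Real.le_log_iff_exp_le hzpos]; exact hzE
  have hsq : 0 ≤ Real.sqrt (Real.log w) := Real.sqrt_nonneg _
  have hlw := Real.log_natCast_nonneg w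
  by_contra hcon
  push Not at hcon
  have hcon0 : (C + t₀ + C1 / c) * (1 + Real.sqrt (Real.log w)) =
      C * Real.sqrt (Real.log w) + (t₀ + C1 / c) + C + (t₀ + C1 / c) * Real.sqrt (Real.log w) := by
    ring
  have hcon1 : t₀ + C1 / c < t := by
    have : 0 ≤ (t₀ + C1 / c) * Real.sqrt (Real.log w) := by positivity
    have : 0 ≤ C * Real.sqrt (Real.log w) := by positivity
    linarith
  have hcon2 : C * Real.sqrt (Real.log w) < t := by
    have : 0 ≤ (t₀ + C1 / c) * Real.sqrt (Real.log w) := by positivity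
    linarith
  set t' := min t L with ht'
  have ht1 : t₀ + C1 / c ≤ t' := le_min hcon1.le (by linarith)
  have ht2 : t' ≤ L := min_le_right _ _
  have ht0 : 0 < t' := by linarith
  have h1 := h z hz0 w hw hwz t' (by linarith) ht2 a (hcov.mono (min_le_left _ _))
  have h2 := hs z hz6 (nonzeroPrimes w z a) (by
    intro p hp
    unfold nonzeroPrimes at hp
    rw [mem_filter, mem_Ioc] at hp
    refine ⟨hp.2.1, ?_, hp.1.2⟩
    by_contra h3
    exact hp.2.2 (ha p hp.2.1 hp.1.1 (by omega)))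
  have hLpos : 0 < L := by linarith
  have h3 : c ≤ C1 / t' * max 1 (Real.log w / t') := by
    calc c ≤ _ := h1
      _ ≤ L / t' * max 1 (Real.log w / t') * (C1 / L) := by gcongr
      _ = _ := by field_simp
  have h4 : t' < Real.log w := by
    by_contra h5
    push Not at h5
    have h6 : Real.log w / t' ≤ 1 := (div_le_one ht0).mpr h5
    rw [max_eq_left h6, mul_one, le_div_iff₀ ht0] at h3
    have h7 : t' ≤ C1 / c := by rw [le_div_iff₀ hc]; linarith
    linarith
  have h6 : 1 ≤ Real.log w / t' := (one_le_div ht0).mpr h4.le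
  rw [max_eq_right h6, div_mul_div_comm, le_div_iff₀ (by positivity)] at h3
  have h7 : t' ^ 2 ≤ (C1 / c) * Real.log w := by
    rw [div_mul_eq_mul_div, le_div_iff₀ hc]
    linarith
  have h8 : t' ≤ C * Real.sqrt (Real.log w) := by
    rw [hC, ← Real.sqrt_mul hc1.le]
    exact Real.le_sqrt_of_sq_le h7
  have h9 : t' = L := by
    rcases min_choice t L with h | h
    · exfalso
      rw [← ht'] at h
      linarith
    · exact h
  have hlwL : Real.log w ≤ L := by
    rw [hL]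
    apply Real.log_le_log (by exact_mod_cast hw)
    exact_mod_cast (Nat.le_self_pow (by norm_num) w).trans hwz
  linarith

/-- Limits of the Erdős–Rankin covering method for large gaps between primes
(`part_two` and `part_three` above are consequences). -/
theorem result : ∃ c : ℝ, 0 < c ∧ ∃ t₀ : ℝ, 0 < t₀ ∧ ∃ z₀ : ℕ, ∀ z : ℕ, z₀ ≤ z →
    ∀ w : ℕ, 1 ≤ w → w ^ 200 ≤ z → ∀ t : ℝ, t₀ ≤ t → t ≤ Real.log z →
    ∀ a : ℕ → ℤ, Covers z t a →
    c ≤ ∑ p ∈ nonzeroPrimes w z a, 1 / (p:ℝ) * (Real.log z / Real.log (z * Real.exp t / p)) *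
        max 1 (Real.log w / Real.log (z * Real.exp t / p)) := by
  obtain ⟨c, hc, t₀, ht₀, z₀, h⟩ := Pool.Agent.H316R2.barrier2
  refine ⟨c, hc, t₀, ht₀, max z₀ 1, ?_⟩
  intro z hz w hw hwz t ht1 ht2 a hcov
  have hz0 : 0 < z := (le_max_right _ _).trans hz
  refine (h z ((le_max_left _ _).trans hz) w hw hwz t ht1 ht2 a hcov).trans (le_of_eq ?_)
  unfold nonzeroPrimes
  apply sum_congr rfl
  intro p hp
  rw [mem_filter] at hp
  rw [log_eq hz0 hp.2.1.pos]

end Pool.Agent.Results.MP_b0c12c_nt.RankinBarrier
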